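import Mathlib
import Pool.Agent.U678.BC.End

/-!
# The gap above `1/3` up to `η` is a finite problem

`balance P` is the balance constant and `InD P` says that `P` is in the class `𝒟` of the problem.  A
poset is `K`-thin if every element is incomparable to at most `K` elements.

1. For every `K`-thin poset `P` (of any size) and every `k` there is a `K`-thin poset `Q` with fewer
   than `2 ^ (4 K ^ 2 (k + 7) + 2)` elements, in `𝒟` if and only if `P` is, whose balance constant
   differs from that of `P` by at most `4 (1 - (K + 1) ^ (-2 K)) ^ k`.  So for thin posets the number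
   of elements needed for the precision `η` is a power of `1 / η`.
2. With `N(η) = exp (exp (exp (B log(2/η)³ / η⁴)))`, for an absolute constant `B`: every finite poset
   outside `𝒟` has a finite poset outside `𝒟` with at most `N(η)` elements whose balance constant
   differs by at most `η`.
3. So the question Q1 has a positive answer if and only if for some `ε > 0` the finitely many posets
   outside `𝒟` with at most `N(ε)` elements have balance constants at least `1/3 + 2 ε`: if there is a
   uniform gap, then a finite computation proves it.

Proof.  Mixing: in a `K`-thin poset two lower sets of the same size differ by at most `K` elements on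
each side, an element can be moved to the front of a linear extension at the cost of a factor
`K + 1`, and a lower set contains all lower sets with `K` elements less.  So the transfer operator
from the lower sets of size `m + K` to the lower sets of size `m` contracts the oscillation of the
conditional probabilities by the factor `1 - (K + 1) ^ (-2 K)`, and the probability `P(x before y)`
is determined up to an exponentially small error by the poset induced on a window around `x`, `y`
(in a fixed linear extension).  Splicing: elements at distance at least `2 K` in the fixed linear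
extension are comparable; if two places have the same surroundings, the part of the poset between them
can be left out, and every window of the new poset is a window of the old one, with the two ends
unchanged; windows around an optimal pair and around a certificate for `P ∉ 𝒟` are kept.  The posets
which are not thin have balance constant almost `1/2` by the starting file `ManyIncomparable`.
-/

set_option autoImplicit false

namespace Pool.Agent.Results.MP_33fb9b_co.FiniteReduction

open Pool.Agent.H13R3.WB Pool.Agent.U678.BC

theorem result :
    -- thin posets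
    (∀ K : ℕ, 1 ≤ K → ∀ (k : ℕ) (P : Type) [Fintype P] [PartialOrder P] [Nonempty P],
      (∀ x : P, Nat.card {y : P // ¬ x ≤ y ∧ ¬ y ≤ x} ≤ K) →
      ∃ (Q : Type) (_ : Fintype Q) (_ : PartialOrder Q), Nonempty Q ∧
        (∀ x : Q, Nat.card {y : Q // ¬ x ≤ y ∧ ¬ y ≤ x} ≤ K) ∧
        Fintype.card Q < 2 ^ (4 * K ^ 2 * (k + 7) + 2) ∧ (InD Q ↔ InD P) ∧
        |balance Q - balance P| ≤ 4 * (1 - 1 / ((K : ℝ) + 1) ^ (2 * K)) ^ k) ∧
    -- all posets
    ∃ B : ℝ, 0 < B ∧
      (∀ η : ℝ, 0 < η → η ≤ 1 / 2 → ∀ (P : Type) [Fintype P] [PartialOrder P] [Nonempty P],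
        ¬ InD P → ∃ (Q : Type) (_ : Fintype Q) (_ : PartialOrder Q), Nonempty Q ∧ ¬ InD Q ∧
          (Fintype.card Q : ℝ) ≤
            Real.exp (Real.exp (Real.exp (B * (Real.log (2 / η) ^ 3 / η ^ 4)))) ∧
          |balance Q - balance P| ≤ η) ∧
      -- the question Q1
      ((∃ ε : ℝ, 0 < ε ∧ ∀ (P : Type) [Fintype P] [PartialOrder P] [Nonempty P], ¬ InD P →
          1 / 3 + ε ≤ balance P) ↔
        ∃ ε : ℝ, 0 < ε ∧ ε ≤ 1 / 2 ∧
          ∀ (P : Type) [Fintype P] [PartialOrder P] [Nonempty P], ¬ InD P →
            (Fintype.card P : ℝ) ≤
              Real.exp (Real.exp (Real.exp (B * (Real.log (2 / ε) ^ 3 / ε ^ 4)))) →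
            1 / 3 + 2 * ε ≤ balance P) := by
  refine ⟨?_, ?_⟩
  · intro K hK k P _ _ _ hP
    obtain ⟨Q, i1, i2, h1, h2, h3, h4, h5, -⟩ := main_thin (k := k) hK P hP
    refine ⟨Q, i1, i2, h1, h2, ?_, h5, ?_⟩
    · have e : NK K k = 2 ^ (4 * K ^ 2 * (k + 7) + 2) := by
        unfold NK
        rw [pow_add, mul_comm]
        congr 1
        congr 1
        ring
      rwa [← e]
    · have e : rho K = 1 - 1 / ((K : ℝ) + 1) ^ (2 * K) := by
        unfold rho
        rw [inv_pow, ← pow_mul, one_div, mul_comm K 2]
      rwa [← e]
  · obtain ⟨B, hB, h⟩ := red_D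
    refine ⟨B, hB, h, ?_, ?_⟩
    · rintro ⟨ε, h0, h1⟩
      refine ⟨min (ε / 2) (1 / 2), by positivity, min_le_right _ _, fun P _ _ _ hD _ => ?_⟩
      have := h1 P hD
      have := min_le_left (ε / 2) (1 / 2)
      linarith
    · rintro ⟨ε, h0, h1, h2⟩
      refine ⟨ε, h0, fun P _ _ _ hD => ?_⟩
      obtain ⟨Q, i1, i2, g1, g2, g3, g4⟩ := h ε h0 h1 P hD
      have h3 := @h2 Q i1 i2 g1 g2 g3
      rw [abs_le] at g4
      linarith

end Pool.Agent.Results.MP_33fb9b_co.FiniteReduction
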