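import Mathlib
import Pool.Agent.U155.FE.U
import Pool.Agent.N175.SO.CloseFin

/-!
# The gap above `1/3` for posets whose cover graph is a forest

There is an absolute constant `ε > 0` such that every finite nonempty poset whose cover graph (Hasse
diagram) is a forest lies in `𝒟` or has balance constant at least `1/3 + ε`.  The same holds for every
poset in the closure of this class under disjoint sums, direct sums, and the passage from a member
outside `𝒟` to any poset which contains it as an autonomous subset.

Proof.  Consider a poset `P` without balanced pairs.  By the starting results all elements of `P` are
incomparable to a bounded number of elements, and two elements with the same lower elements whose sets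
of upper elements differ by chains are in an exceptional position.  Two further configurations are
excluded by exchange arguments (`b2`, `t3`).  If `P` contains autonomous copies `e₁ < e₂`, `f` of the
three-element poset with one relation, then the three elements are on the same side of every other
element with large probability, and the properties are shown for the order in which every such copy is
replaced by the chain `e₁ < f < e₂`, with one exceptional case, in which the difference of the two sets
of upper elements is such a chain at the top.  The rest of the proof is combinatorial.  If the cover
graph of `P` is a tree and `P` is not a direct sum, then the same is true for the new order, and it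
contains two disjoint tips: sides of edges which consist of chains above and below the end vertex of the
edge, one above and one below its edge, while all sides disjoint from the two tips are chains.  One
follows the path from the first tip to the second one; at every branching the rules leave only one
possibility, until there is none.
-/

set_option autoImplicit false

namespace Pool.Agent.Results.MP_33fb9b_co.ForestGap

open Pool.Agent.H13R3.WB Pool.Agent.H931R3.Bal Pool.Agent.R636.BG Pool.Agent.N175.SO

/-- **The gap above `1/3` for posets whose cover graph is a forest.** -/
theorem result : ∃ ε : ℝ, 0 < ε ∧
    (∀ (P : Type) [Fintype P] [PartialOrder P] [Nonempty P], (SimpleGraph.hasse P).IsAcyclic →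
      InD P ∨ 1 / 3 + ε ≤ balance P) ∧
    ∀ (R : Type) [Fintype R] [PartialOrder R],
      Closed (fun P _ => Nonempty P ∧ (SimpleGraph.hasse P).IsAcyclic) R →
        InD R ∨ 1 / 3 + ε ≤ balance R := by
  obtain ⟨ε, h0, h1, h2⟩ := Pool.Agent.U155.FE.forest_setupE
  refine ⟨ε, h0, fun P _ _ _ hA => h2 P hA, ?_⟩
  intro R _ _ hR
  refine (Closed.gap (c := 1 / 3 + ε) (by linarith) ?_ hR).2
  intro P _ _ hP
  obtain ⟨hne, hA⟩ := hP
  exact ⟨hne, h2 P hA⟩

end Pool.Agent.Results.MP_33fb9b_co.ForestGap
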