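import Pool.Agent.U396.H2.Two
import Pool.Agent.N175.SO.CloseFin

/-!
# The gap above `1/3` for posets of height two, and for posets with many similar low elements

With the explicit constant `1/300` the gap above `1/3` is proved for

* all posets of height at most two (no chains with three elements) which are not in `𝒟`;
* all posets with a set `A` of `m ≥ 3` elements which have the same lower elements, such that every
  element of `A` is incomparable to at most `(m - 1) (m + 7) / 5` elements (for example all posets
  with `m ≥ 3` minimal elements and at most `1 + (m - 1) (m + 7) / 5` elements), and their duals;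
* all posets outside `𝒟` of the closure of these classes and of the posets of width two under
  isomorphism, disjoint sums, direct sums, and the passage from a member outside `𝒟` to any poset
  which contains it as an autonomous subset.

Proof.  Let `x` and `y` have the same lower elements.  Let `f` be the probability that `y` comes
immediately after the last element which is below it.  Moving `y` down shows that the distribution of
the number `d` of elements between this place and `y` is nonincreasing.  The elements of `A` cannot
occupy the first free place at the same time, hence the sum of the numbers `f` is at most one, and the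
mean of `d` is at least `(1 / f - 1) / 2` but at most half the number of incomparable elements.  If no
pair is balanced better than `1/3 + 1/300`, then for each pair the difference of the average heights
is, by the exchange of `x` and `y` and a bathtub argument, at least `0.1066 / f + 0.3316`.  Adding up
along the order of the heights and using the inequality of Sedrakyan gives a contradiction when `A` is
large; the case of small `A` follows by substituting a large lexicographic power for the elements.
In a poset of height two without isolated elements, the minimal or the maximal elements are at least
half of all elements.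
-/

set_option autoImplicit false

namespace Pool.Agent.Results.MP_33fb9b_co.HeightTwo

open Pool.Agent.H13R3.WB Pool.Agent.H931R3.Bal Pool.Agent.R636.BG Pool.Agent.N175.SO

/-- there are no chains with three elements -/
def HeightLeTwo (P : Type) [PartialOrder P] : Prop := ∀ x y z : P, x < y → ¬ y < z

/-- there are no antichains with three elements -/
def WidthLeTwo (P : Type) [PartialOrder P] : Prop :=
  ∀ s : Finset P, IsAntichain (· ≤ ·) (s : Set P) → s.card ≤ 2

/-- there is a set `A` of `m ≥ 3` elements with the same lower elements, each of which is
incomparable to at most `(m - 1) (m + 7) / 5` elements of the poset -/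
def ManyLow (P : Type) [PartialOrder P] : Prop :=
  ∃ A : Finset P, 3 ≤ A.card ∧ (∀ a ∈ A, ∀ b ∈ A, ∀ w : P, w < a ↔ w < b) ∧
    ∀ a ∈ A, 5 * Nat.card {z : P // ¬ z ≤ a ∧ ¬ a ≤ z} ≤ (A.card - 1) * (A.card + 7)

lemma many_low (P : Type) [Fintype P] [PartialOrder P] (h : ManyLow P) :
    1 / 3 + 1 / 300 ≤ balance P := by
  classical
  obtain ⟨A, h3, hA, hi⟩ := h
  refine Pool.Agent.U396.H2.low_gap P A h3 hA fun a ha => ?_
  have h4 : Nat.card {z : P // ¬ z ≤ a ∧ ¬ a ≤ z} = Pool.Agent.U396.H2.inc a := by
    rw [Nat.card_eq_fintype_card, Fintype.card_subtype]
    unfold Pool.Agent.U396.H2.inc
    congr 1
  rw [← h4]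
  exact hi a ha

/-- **The gap above `1/3` for posets of height two, and for posets with many similar low elements.** -/
theorem result (R : Type) [Fintype R] [PartialOrder R]
    (hR : Closed
      (fun P _ => Nonempty P ∧ (HeightLeTwo P ∨ WidthLeTwo P ∨ ManyLow P ∨ ManyLow Pᵒᵈ)) R) :
    InD R ∨ 1 / 3 + 1 / 300 ≤ balance R := by
  refine (Closed.gap (c := 1 / 3 + 1 / 300) (by norm_num) ?_ hR).2
  intro P _ _ hP
  obtain ⟨hne, hP⟩ := hP
  refine ⟨hne, ?_⟩
  rcases hP with h | h | h | h
  · exact Pool.Agent.U396.H2.two_gap P h
  · rcases Pool.Agent.TH153.WQ.width_two_gap P h with h1 | h1
    · exact Or.inl h1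
    · right
      refine le_trans ?_ h1
      unfold Pool.Agent.TH153.WQ.cR
      norm_num
  · exact Or.inr (many_low P h)
  · right
    rw [← balance_dual P]
    exact many_low Pᵒᵈ h

end Pool.Agent.Results.MP_33fb9b_co.HeightTwo
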