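import Mathlib
import Pool.Agent.U276.TP.Free
import Pool.Agent.N175.SO.CloseFin

/-!
# The gap above `1/3` for `(3+1)`-free posets

There is an absolute constant `ε > 0` such that every finite nonempty poset without elements
`a < b < c` and `d` incomparable to `a`, `b` and `c` lies in `𝒟` or has balance constant at least
`1/3 + ε`.  All semiorders and all posets of height at most two are `(3+1)`-free.  The same holds for
all posets with a tangle (below), and for the closure of the two classes under disjoint sums, direct
sums, and the passage from a member outside `𝒟` to any poset which contains it as an autonomous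
subset.

Proof.  Two elements *cross* if neither set of upper elements contains the other one.  In a
`(3+1)`-free poset crossing elements have the same lower elements; a poset without crossing elements
is a semiorder, for which the gap is known.  Otherwise the connected components of the crossing
relation give a *tangle*: sets `L`, `W` such that the elements of `L` have the same lower elements, the
elements of `W` have the same upper elements, `W` consists of the elements above some but not all
elements of `L`, and `L` of the elements below some but not all elements of `W`.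

If two elements of `L` are such that each is below at most one element which is not above the other,
they are close (or there is an autonomous antichain), and the gap follows from the theorem on good
pairs.  Otherwise `L` or `W` has at least six elements and we may assume `|W| ≤ |L| = k`.  Call the
place of an element of a linear extension among the elements which are not in `L ∪ W` its cut.
Conditionally on the other elements the numbers of the elements of `L` before the first element of
`W` and so on are controlled by a negative correlation inequality (the sum over `L` of the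
probabilities that the element comes immediately after the last element below it, times the mean number
of the cuts, is at most one).  Unbalanced pairs force the average heights of the elements of `L` to be
far apart, and adding up over `L` and comparing with the number of elements incomparable to them gives
a contradiction for `k ≥ 6`, after the elements have been replaced by large lexicographic powers.
-/

set_option autoImplicit false

namespace Pool.Agent.Results.MP_33fb9b_co.ThreePlusOneFree

open Pool.Agent.H13R3.WB Pool.Agent.H931R3.Bal Pool.Agent.R636.BG Pool.Agent.N175.SO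

/-- there are no `a < b < c` and `d` incomparable to `a`, `b` and `c` -/
def ThreePlusOneFree (P : Type) [PartialOrder P] : Prop :=
  ¬ ∃ a b c d : P, a < b ∧ b < c ∧
    (¬ a ≤ d ∧ ¬ d ≤ a) ∧ (¬ b ≤ d ∧ ¬ d ≤ b) ∧ (¬ c ≤ d ∧ ¬ d ≤ c)

/-- there are sets `L` and `W` of elements, `L` not empty, such that `L` consists of the elements
below some but not all elements of `W`, `W` consists of the elements above some but not all elements
of `L`, the elements of `L` have the same lower elements, and the elements of `W` have the same upper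
elements -/
def HasTangle (P : Type) [PartialOrder P] : Prop :=
  ∃ L W : Set P, L.Nonempty ∧
    (∀ x, x ∈ L ↔ (∃ w ∈ W, x < w) ∧ ∃ w ∈ W, ¬ x < w) ∧
    (∀ w, w ∈ W ↔ (∃ x ∈ L, x < w) ∧ ∃ x ∈ L, ¬ x < w) ∧
    (∀ x ∈ L, ∀ y ∈ L, ∀ z, z < x ↔ z < y) ∧
    (∀ x ∈ W, ∀ y ∈ W, ∀ z, x < z ↔ y < z)

lemma ThreePlusOneFree.free {P : Type} [PartialOrder P] (h : ThreePlusOneFree P) :
    Pool.Agent.U276.TP.Free31 P := by
  intro a b c d hab hbc
  by_contra hcon
  push Not at hcon
  obtain ⟨h1, h2⟩ := hcon
  have h3 : a ≠ d := by
    rintro rfl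
    exact h2 (hab.trans hbc)
  have h4 : c ≠ d := by
    rintro rfl
    exact h1 (hab.trans hbc)
  refine h ⟨a, b, c, d, hab, hbc, ⟨fun h5 => h1 (lt_of_le_of_ne h5 h3),
    fun h5 => h2 (h5.trans_lt (hab.trans hbc))⟩, ⟨fun h5 => h1 (hab.trans_le h5),
    fun h5 => h2 (h5.trans_lt hbc)⟩, ⟨fun h5 => h1 ((hab.trans hbc).trans_le h5),
    fun h5 => h2 (lt_of_le_of_ne h5 h4.symm)⟩⟩

lemma tangle {P : Type} [PartialOrder P] {L W : Set P} (hL : L.Nonempty)
    (h1 : ∀ x, x ∈ L ↔ (∃ w ∈ W, x < w) ∧ ∃ w ∈ W, ¬ x < w)
    (h2 : ∀ w, w ∈ W ↔ (∃ x ∈ L, x < w) ∧ ∃ x ∈ L, ¬ x < w)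
    (h3 : ∀ x ∈ L, ∀ y ∈ L, ∀ z, z < x ↔ z < y)
    (h4 : ∀ x ∈ W, ∀ y ∈ W, ∀ z, x < z ↔ y < z) : Pool.Agent.U276.TP.Tangle P L W where
  low x hx x' hx' z hz := (h3 x hx x' hx' z).1 hz
  upp w hw w' hw' z hz := (h4 w hw w' hw' z).1 hz
  up_mem x hx x' hx' w h5 h6 := (h2 w).2 ⟨⟨x, hx, h5⟩, ⟨x', hx', h6⟩⟩
  dn_mem w hw w' hw' l h5 h6 := (h1 l).2 ⟨⟨w, hw, h5⟩, ⟨w', hw', h6⟩⟩
  up_some x hx := ((h1 x).1 hx).1
  up_not x hx := ((h1 x).1 hx).2
  dn_some w hw := ((h2 w).1 hw).1
  dn_not w hw := ((h2 w).1 hw).2
  ne := hL

/-- **The gap above `1/3` for `(3+1)`-free posets.** -/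
theorem result : ∃ ε : ℝ, 0 < ε ∧
    (∀ (P : Type) [Fintype P] [PartialOrder P] [Nonempty P], ThreePlusOneFree P →
      InD P ∨ 1 / 3 + ε ≤ balance P) ∧
    ∀ (R : Type) [Fintype R] [PartialOrder R],
      Closed (fun P _ => Nonempty P ∧ (ThreePlusOneFree P ∨ HasTangle P)) R →
        InD R ∨ 1 / 3 + ε ≤ balance R := by
  obtain ⟨ε₄, h4, g4⟩ := pair_gap
  obtain ⟨ε, h0, m1, m2⟩ : ∃ ε : ℝ, 0 < ε ∧ ε ≤ ε₄ ∧ ε ≤ 1 / 12000 :=
    ⟨min ε₄ (1 / 12000), by positivity, min_le_left _ _, min_le_right _ _⟩
  have good : Good ε := fun P _ _ a b hab =>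
    ((g4 P).1 a b hab).imp id (fun h => by linarith)
  have gap : ∀ (P : Type) [Fintype P] [PartialOrder P] [Nonempty P], ThreePlusOneFree P →
      InD P ∨ 1 / 3 + ε ≤ balance P := fun P _ _ _ hP =>
    Pool.Agent.U276.TP.free31_gap good m2 hP.free
  refine ⟨ε, h0, gap, fun R _ _ hR => (Closed.gap (c := 1 / 3 + ε) (by linarith) ?_ hR).2⟩
  intro P _ _ hP
  obtain ⟨hne, hP⟩ := hP
  refine ⟨hne, ?_⟩
  rcases hP with h | ⟨L, W, hL, h1, h2, h3, h4⟩
  · exact gap P h
  · exact Or.inr ((tangle hL h1 h2 h3 h4).gap good m2)

end Pool.Agent.Results.MP_33fb9b_co.ThreePlusOneFree
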